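import Mathlib

/-!
# Hausdorff realizations of Gromov-Hausdorff geodesics
-/

set_option autoImplicit false

namespace Pool.Agent.KS6_91.GH

open Set Metric GromovHausdorff unitInterval

/-- The curve `t ↦ W t` of compact metric spaces is a Gromov-Hausdorff geodesic. -/
def Geodesic (W : I → Type) [∀ t, MetricSpace (W t)] [∀ t, CompactSpace (W t)]
    [∀ t, Nonempty (W t)] : Prop :=
  ∀ s t : I, ghDist (W s) (W t) = |(s : ℝ) - t| * ghDist (W 0) (W 1)

/-- `φ` is a Hausdorff realization of the curve `W` in `X`. -/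
def Realizes (W : I → Type) [∀ t, MetricSpace (W t)] [∀ t, CompactSpace (W t)]
    [∀ t, Nonempty (W t)] (X : Type) [MetricSpace X] (φ : ∀ t, W t → X) : Prop :=
  (∀ t, Isometry (φ t)) ∧ ∀ s t, hausdorffDist (range (φ s)) (range (φ t)) = ghDist (W s) (W t)

/-- The union of the images. -/
def hull {W : I → Type} {X : Type} (φ : ∀ t, W t → X) : Set X := ⋃ t, range (φ t)

/-! ### Surjective nonexpansive maps of a compact space -/

lemma expand {X : Type} [MetricSpace X] [CompactSpace X] (g : X → X)
    (hg : ∀ x y, dist x y ≤ dist (g x) (g y)) (x y : X) : dist (g x) (g y) = dist x y := by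
  refine le_antisymm (le_of_forall_pos_le_add fun ε hε => ?_) (hg x y)
  have hit : ∀ n (x y : X), dist x y ≤ dist (g^[n] x) (g^[n] y) := by
    intro n
    induction n with
    | zero => intro x y; exact le_rfl
    | succ n ih =>
      intro x y
      rw [Function.iterate_succ_apply, Function.iterate_succ_apply]
      exact (hg x y).trans (ih _ _)
  obtain ⟨p, -, ρ, hρ, hp⟩ := isCompact_univ.tendsto_subseq (x := fun n => (g^[n] x, g^[n] y))
    fun n => mem_univ _
  have hc : CauchySeq fun n => (g^[ρ n] x, g^[ρ n] y) := hp.cauchySeq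
  obtain ⟨N, hN⟩ := Metric.cauchySeq_iff.mp hc (ε / 2) (half_pos hε)
  have h1 := hN (N + 1) (by omega) N le_rfl
  have hlt : ρ N < ρ (N + 1) := hρ (Nat.lt_succ_self N)
  obtain ⟨k, hk⟩ := Nat.exists_eq_add_of_lt hlt
  rw [Prod.dist_eq, max_lt_iff] at h1
  have key : ∀ z : X, dist (g^[ρ (N + 1)] z) (g^[ρ N] z) < ε / 2 →
      dist (g^[k + 1] z) z < ε / 2 := by
    intro z hz
    refine (hit (ρ N) _ _).trans_lt ?_
    rw [← Function.iterate_add_apply, show ρ N + (k + 1) = ρ (N + 1) by omega]
    exact hz
  have h2 := key x h1.1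
  have h3 := key y h1.2
  have h4 : dist (g x) (g y) ≤ dist (g^[k + 1] x) (g^[k + 1] y) := by
    rw [Function.iterate_succ_apply, Function.iterate_succ_apply]
    exact hit k _ _
  have h5 := dist_triangle4 (g^[k + 1] x) x y (g^[k + 1] y)
  rw [dist_comm y] at h5
  linarith

/-- A surjective nonexpansive map of a compact metric space to itself is an isometry. -/
lemma nonexpansive {X : Type} [MetricSpace X] [CompactSpace X] (f : X → X)
    (hs : Function.Surjective f) (hf : ∀ x y, dist (f x) (f y) ≤ dist x y) (x y : X) :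
    dist (f x) (f y) = dist x y := by
  -- every right inverse is expanding, hence isometric
  classical
  by_contra hne
  have hlt : dist (f x) (f y) < dist x y := lt_of_le_of_ne (hf x y) hne
  have hxy : f x ≠ f y ∨ f x = f y := ne_or_eq _ _
  obtain ⟨g, hg⟩ := hs.hasRightInverse
  have hex : ∀ g : X → X, Function.RightInverse g f → ∀ a b, dist (g a) (g b) = dist a b := by
    intro g hg
    refine expand g fun a b => ?_
    have h := hf (g a) (g b)
    rwa [hg a, hg b] at h
  rcases hxy with h | h
  · let g' : X → X := fun a => if a = f x then x else if a = f y then y else g a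
    have hg' : Function.RightInverse g' f := by
      intro a
      simp only [g']
      split_ifs with h1 h2
      · exact h1.symm
      · exact h2.symm
      · exact hg a
    have h1 := hex g' hg' (f x) (f y)
    simp only [g', if_true, if_neg h.symm] at h1
    exact hne h1.symm
  · -- two right inverses which differ at one point only
    have hxy' : x ≠ y := by
      rintro rfl
      rw [dist_self, dist_self] at hlt
      exact lt_irrefl _ hlt
    let g₁ : X → X := fun a => if a = f x then x else g a
    let g₂ : X → X := fun a => if a = f x then y else g a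
    have hg₁ : Function.RightInverse g₁ f := by
      intro a
      simp only [g₁]
      split_ifs with h1
      · exact h1.symm
      · exact hg a
    have hg₂ : Function.RightInverse g₂ f := by
      intro a
      simp only [g₂]
      split_ifs with h1
      · rw [h1, h]
      · exact hg a
    -- an isometric map of a compact space to itself is surjective
    have hsurj : ∀ g : X → X, (∀ a b, dist (g a) (g b) = dist a b) → Function.Surjective g := by
      intro g hgi z
      have hclosed : IsClosed (range g) :=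
        (isCompact_range (Isometry.of_dist_eq hgi).continuous).isClosed
      rw [← mem_range, ← hclosed.closure_eq, Metric.mem_closure_iff]
      intro ε hε
      have hit : ∀ n (x y : X), dist (g^[n] x) (g^[n] y) = dist x y := by
        intro n
        induction n with
        | zero => intro x y; rfl
        | succ n ih =>
          intro x y
          rw [Function.iterate_succ_apply, Function.iterate_succ_apply, ih, hgi]
      obtain ⟨p, -, ρ, hρ, hp⟩ := isCompact_univ.tendsto_subseq (x := fun n => g^[n] z)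
        fun n => mem_univ _
      obtain ⟨N, hN⟩ := Metric.cauchySeq_iff.mp hp.cauchySeq ε hε
      have h1 := hN (N + 1) (by omega) N le_rfl
      have hlt : ρ N < ρ (N + 1) := hρ (Nat.lt_succ_self N)
      obtain ⟨k, hk⟩ := Nat.exists_eq_add_of_lt hlt
      refine ⟨g^[k + 1] z, ⟨g^[k] z, (Function.iterate_succ_apply' g k z).symm⟩, ?_⟩
      rw [dist_comm, ← hit (ρ N), ← Function.iterate_add_apply,
        show ρ N + (k + 1) = ρ (N + 1) by omega]
      exact h1
    obtain ⟨a, ha⟩ := hsurj g₁ (hex g₁ hg₁) y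
    have h1 : f (g₁ a) = f y := by rw [ha]
    rw [hg₁ a, ← h] at h1
    simp only [g₁, h1, if_true] at ha
    exact hxy' ha

/-- The space as a subset of itself. -/
def univIso (X : Type) [MetricSpace X] : (univ : Set X) ≃ᵢ X :=
  IsometryEquiv.mk (Equiv.Set.univ X) fun _ _ => rfl

/-! ### The criterion -/

section Criterion

variable {W : I → Type} [∀ t, MetricSpace (W t)] [∀ t, CompactSpace (W t)] [∀ t, Nonempty (W t)]
  {X : Type} [MetricSpace X] [CompactSpace X] {φ : ∀ t, W t → X}

lemma near (hφ : Realizes W X φ) (s t : I) (x : W s) :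
    ∃ y : W t, dist (φ s x) (φ t y) ≤ ghDist (W s) (W t) := by
  have hc : IsCompact (range (φ t)) := isCompact_range (hφ.1 t).continuous
  obtain ⟨_, ⟨y, rfl⟩, hy⟩ := hc.exists_infDist_eq_dist (range_nonempty _) (φ s x)
  refine ⟨y, ?_⟩
  rw [← hy, ← hφ.2 s t]
  exact infDist_le_hausdorffDist_of_mem (mem_range_self x)
    (hausdorffEDist_ne_top_of_nonempty_of_bounded (range_nonempty _) (range_nonempty _)
      (isCompact_range (hφ.1 s).continuous).isBounded hc.isBounded)

/-- The set of the pairs `(z, r)`, `z` a point of the space at the time `t`, `r = a D t`. -/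
def Sa (φ : ∀ t, W t → X) (a D : ℝ) : Set (X × ℝ) :=
  {p | ∃ t : I, p.1 ∈ range (φ t) ∧ p.2 = a * D * t}

lemma compact_Sa (hW : Geodesic W) (hφ : Realizes W X φ) (a D : ℝ) : IsCompact (Sa φ a D) := by
  set D₀ := ghDist (W 0) (W 1) with hD₀
  have hfin : ∀ s t, hausdorffEDist (range (φ s)) (range (φ t)) ≠ ⊤ := fun s t =>
    hausdorffEDist_ne_top_of_nonempty_of_bounded (range_nonempty _) (range_nonempty _)
      (isCompact_range (hφ.1 s).continuous).isBounded (isCompact_range (hφ.1 t).continuous).isBounded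
  have hcont : Continuous fun p : X × I => infDist p.1 (range (φ p.2)) := by
    rw [Metric.continuous_iff]
    intro p ε hε
    refine ⟨ε / (1 + |D₀|), by positivity, fun q hq => ?_⟩
    rw [Prod.dist_eq, max_lt_iff] at hq
    have key : ∀ p q : X × I, infDist p.1 (range (φ p.2)) ≤
        infDist q.1 (range (φ q.2)) + dist p.1 q.1 + |D₀| * dist p.2 q.2 := by
      intro p q
      have h1 := infDist_le_infDist_add_dist (s := range (φ p.2)) (x := p.1) (y := q.1)
      have h2 := infDist_le_infDist_add_hausdorffDist (x := q.1) (hfin q.2 p.2)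
      rw [hφ.2, hW q.2 p.2] at h2
      have h3 : |(q.2 : ℝ) - p.2| * D₀ ≤ |D₀| * dist p.2 q.2 := by
        rw [dist_comm, Subtype.dist_eq, Real.dist_eq, mul_comm]
        exact mul_le_mul_of_nonneg_right (le_abs_self _) (abs_nonneg _)
      linarith
    have h1 := key p q
    have h2 := key q p
    rw [dist_comm p.1, dist_comm p.2] at h1
    have h3 : dist q.1 p.1 + |D₀| * dist q.2 p.2 < ε := by
      calc dist q.1 p.1 + |D₀| * dist q.2 p.2
          < ε / (1 + |D₀|) + |D₀| * (ε / (1 + |D₀|)) :=
            add_lt_add_of_lt_of_le hq.1 (mul_le_mul_of_nonneg_left hq.2.le (abs_nonneg _))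
        _ = ε := by
            have : (1 + |D₀|) ≠ 0 := by positivity
            field_simp
    rw [Real.dist_eq, abs_sub_lt_iff]
    constructor <;> linarith
  have hK : IsCompact {p : X × I | p.1 ∈ range (φ p.2)} := by
    apply IsClosed.isCompact
    have h1 : {p : X × I | p.1 ∈ range (φ p.2)} = {p | infDist p.1 (range (φ p.2)) = 0} := by
      ext p
      exact (isCompact_range (hφ.1 p.2).continuous).isClosed.mem_iff_infDist_zero
        (range_nonempty _)
    rw [h1]
    exact isClosed_eq hcont continuous_const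
  have h2 : Sa φ a D = (fun p : X × I => (p.1, a * D * (p.2 : ℝ))) ''
      {p : X × I | p.1 ∈ range (φ p.2)} := by
    ext p
    constructor
    · rintro ⟨t, h1, h2⟩
      exact ⟨(p.1, t), h1, Prod.ext rfl h2.symm⟩
    · rintro ⟨q, h1, rfl⟩
      exact ⟨q.2, h1, rfl⟩
  rw [h2]
  exact hK.image (by fun_prop)

/-- The embedding of the space at the time `t`. -/
def φa (φ : ∀ t, W t → X) (a D : ℝ) (t : I) (x : W t) : Sa φ a D :=
  ⟨(φ t x, a * D * t), t, mem_range_self x, rfl⟩

lemma realizes_φa (hW : Geodesic W) (hφ : Realizes W X φ) {a : ℝ} (ha : 0 ≤ a) (ha1 : a ≤ 1) :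
    Realizes W (Sa φ a (ghDist (W 0) (W 1))) (φa φ a (ghDist (W 0) (W 1))) := by
  have hiso : ∀ t, Isometry (φa φ a (ghDist (W 0) (W 1)) t) := fun t =>
    Isometry.of_dist_eq fun x y => by
      rw [Subtype.dist_eq, Prod.dist_eq]
      simp only [φa, dist_self]
      rw [max_eq_left dist_nonneg, (hφ.1 t).dist_eq]
  have hD : 0 ≤ ghDist (W 0) (W 1) := by
    rw [← hφ.2 0 1]
    exact hausdorffDist_nonneg
  have key : ∀ (s t : I) (x : W s), ∃ q ∈ range (φa φ a (ghDist (W 0) (W 1)) t),
      dist (φa φ a (ghDist (W 0) (W 1)) s x) q ≤ ghDist (W s) (W t) := by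
    intro s t x
    obtain ⟨y, hy⟩ := near hφ s t x
    refine ⟨_, mem_range_self y, ?_⟩
    rw [Subtype.dist_eq, Prod.dist_eq]
    refine max_le hy ?_
    simp only [φa]
    rw [Real.dist_eq, ← mul_sub, abs_mul, abs_mul, abs_of_nonneg ha, abs_of_nonneg hD, hW s t,
      mul_comm |(s : ℝ) - t|]
    have h1 : 0 ≤ ghDist (W 0) (W 1) * |(s : ℝ) - t| := mul_nonneg hD (abs_nonneg _)
    nlinarith
  refine ⟨hiso, fun s t => le_antisymm ?_ ?_⟩
  · refine hausdorffDist_le_of_mem_dist ?_ (forall_mem_range.2 fun x => key s t x)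
      (forall_mem_range.2 fun x => ?_)
    · rw [← hφ.2 s t]
      exact hausdorffDist_nonneg
    · have h1 := key t s x
      rwa [show ghDist (W t) (W s) = ghDist (W s) (W t) by
        rw [hW t s, hW s t, abs_sub_comm]] at h1
  · exact ghDist_le_hausdorffDist (hiso s) (hiso t)

lemma hull_φa (a D : ℝ) : hull (φa φ a D) = univ := by
  rw [eq_univ_iff_forall]
  rintro ⟨⟨z, r⟩, t, ⟨x, hx⟩, hr⟩
  refine mem_iUnion.mpr ⟨t, x, ?_⟩
  apply Subtype.ext
  exact Prod.ext hx hr.symm

lemma not_iso (hW : Geodesic W) (hφ : Realizes W X φ) {a b : ℝ} (ha : 0 < a) (hab : a < b)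
    {s t : I} {x : W s} {y : W t} (h : dist (φ s x) (φ t y) ≤ a * ghDist (W s) (W t))
    (hpos : 0 < ghDist (W s) (W t)) :
    IsEmpty (Sa φ a (ghDist (W 0) (W 1)) ≃ᵢ Sa φ b (ghDist (W 0) (W 1))) := by
  refine ⟨fun e => ?_⟩
  set D := ghDist (W 0) (W 1) with hD
  have hb : 0 < b := ha.trans hab
  have hD0 : 0 ≤ D := by
    rw [hD, ← hφ.2 0 1]
    exact hausdorffDist_nonneg
  have : CompactSpace (Sa φ b D) := isCompact_iff_compactSpace.1 (compact_Sa hW hφ b D)
  -- the map from `S_b` to `S_a`
  let ι : Sa φ b D → Sa φ a D := fun p => ⟨(p.1.1, a / b * p.1.2), by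
    obtain ⟨t, h1, h2⟩ := p.2
    refine ⟨t, h1, ?_⟩
    change a / b * p.1.2 = _
    rw [h2]
    field_simp⟩
  have hι : ∀ p q, dist (ι p) (ι q) ≤ dist p q := by
    intro p q
    rw [Subtype.dist_eq, Subtype.dist_eq, Prod.dist_eq, Prod.dist_eq]
    refine max_le_max le_rfl ?_
    change dist (a / b * p.1.2) (a / b * q.1.2) ≤ _
    rw [Real.dist_eq, Real.dist_eq, ← mul_sub, abs_mul, abs_of_pos (div_pos ha hb)]
    exact mul_le_of_le_one_left (abs_nonneg _) ((div_le_one hb).mpr hab.le)
  have hs : Function.Surjective ι := by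
    rintro ⟨⟨z, r⟩, t, h1, h2⟩
    refine ⟨⟨(z, b / a * r), t, h1, ?_⟩, ?_⟩
    · change b / a * r = _
      rw [show r = a * D * t from h2]
      field_simp
    · apply Subtype.ext
      refine Prod.ext rfl ?_
      change a / b * (b / a * r) = r
      field_simp
  have h1 := nonexpansive (fun p => e (ι p)) (e.surjective.comp hs) (fun p q => by
    rw [e.dist_eq]
    exact hι p q) (φa φ b D s x) (φa φ b D t y)
  rw [e.dist_eq, Subtype.dist_eq, Subtype.dist_eq, Prod.dist_eq, Prod.dist_eq] at h1
  change max (dist (φ s x) (φ t y)) (dist (a / b * (b * D * s)) (a / b * (b * D * t))) =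
    max (dist (φ s x) (φ t y)) (dist (b * D * (s : ℝ)) (b * D * t)) at h1
  have h2 : ∀ c : ℝ, 0 < c → dist (c * D * (s : ℝ)) (c * D * t) = c * ghDist (W s) (W t) := by
    intro c hc
    rw [Real.dist_eq, ← mul_sub, abs_mul, abs_mul, abs_of_pos hc, abs_of_nonneg hD0, hW s t]
    ring
  have h3 : ∀ u : ℝ, a / b * (b * D * u) = a * D * u := by
    intro u
    field_simp
  rw [h3, h3, h2 a ha, h2 b hb, max_eq_right h, max_eq_right (h.trans (by nlinarith))] at h1
  nlinarith

/-- The curve `W` has a family, indexed by the interval `[0, 1]`, of Hausdorff realizations in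
compact spaces whose hulls are pairwise not isometric. -/
def ManyHulls (W : I → Type) [∀ t, MetricSpace (W t)] [∀ t, CompactSpace (W t)]
    [∀ t, Nonempty (W t)] : Prop :=
  ∃ (X : I → Type) (_ : ∀ a, MetricSpace (X a)) (φ : ∀ a t, W t → X a),
    (∀ a, CompactSpace (X a)) ∧ (∀ a, Realizes W (X a) (φ a)) ∧
    (∀ a b, a ≠ b → IsEmpty (X a ≃ᵢ X b)) ∧
    ∀ a b, a ≠ b → IsEmpty (hull (φ a) ≃ᵢ hull (φ b))

theorem criterion (hW : Geodesic W) (hφ : Realizes W X φ) {s t : I} {x : W s} {y : W t}
    (h : dist (φ s x) (φ t y) < ghDist (W s) (W t)) : ManyHulls W := by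
  have hpos : 0 < ghDist (W s) (W t) := dist_nonneg.trans_lt h
  set δ := dist (φ s x) (φ t y) with hδ
  set g := ghDist (W s) (W t) with hg
  have h0 : 0 ≤ δ := dist_nonneg
  -- the parameters
  let A : I → ℝ := fun u => (δ + g) / (2 * g) + (1 - (δ + g) / (2 * g)) * u
  have hr : δ / g < (δ + g) / (2 * g) := by
    rw [div_lt_div_iff₀ hpos (by positivity)]
    nlinarith
  have hr1 : (δ + g) / (2 * g) < 1 := by
    rw [div_lt_one (by positivity)]
    linarith
  have hr0 : 0 < (δ + g) / (2 * g) := by positivity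
  have hA : ∀ u, (δ + g) / (2 * g) ≤ A u := fun u => by
    have := u.2.1
    simp only [A]
    nlinarith
  have hA1 : ∀ u, A u ≤ 1 := fun u => by
    have := u.2.2
    simp only [A]
    nlinarith
  have hlt : ∀ u v : I, u < v → A u < A v := fun u v huv => by
    have : (u : ℝ) < v := huv
    simp only [A]
    nlinarith
  have hδA : ∀ u, δ ≤ A u * g := fun u => by
    have h1 : δ / g ≤ A u := hr.le.trans (hA u)
    rwa [div_le_iff₀ hpos] at h1
  set D := ghDist (W 0) (W 1) with hD
  have hne : ∀ u v : I, u ≠ v → IsEmpty (Sa φ (A u) D ≃ᵢ Sa φ (A v) D) := by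
    intro u v huv
    rcases lt_or_gt_of_ne huv with h1 | h1
    · exact not_iso hW hφ (hr0.trans_le (hA u)) (hlt u v h1) (hδA u) hpos
    · have h2 := not_iso hW hφ (hr0.trans_le (hA v)) (hlt v u h1) (hδA v) hpos
      exact ⟨fun e => h2.false e.symm⟩
  refine ⟨fun u => Sa φ (A u) D, inferInstance, fun u => φa φ (A u) D,
    fun u => isCompact_iff_compactSpace.1 (compact_Sa hW hφ _ _),
    fun u => realizes_φa hW hφ (hr0.le.trans (hA u)) (hA1 u), hne, fun u v huv => ?_⟩
  rw [hull_φa, hull_φa]
  exact ⟨fun e => (hne u v huv).false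
    ((univIso _).symm.trans (e.trans (univIso _)))⟩

end Criterion

end Pool.Agent.KS6_91.GH
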