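import Pool.Agent.KS6_91.GH.Main

/-!
# A geodesic with many hulls from every compact space
-/

set_option autoImplicit false

namespace Pool.Agent.KS6_91.GH

open Set Metric GromovHausdorff unitInterval

/-- The product `Y × ℝ` with the sum metric. -/
@[ext] structure P (Y : Type) where
  /-- the point of `Y` -/
  y : Y
  /-- the real number -/
  r : ℝ

section

variable {Y : Type} [MetricSpace Y]

noncomputable instance : MetricSpace (P Y) where
  dist p q := dist p.y q.y + |p.r - q.r|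
  dist_self p := by simp
  dist_comm p q := by rw [dist_comm, abs_sub_comm]
  dist_triangle p q v := by
    have h1 := dist_triangle p.y q.y v.y
    have h2 := abs_sub_le p.r q.r v.r
    linarith
  eq_of_dist_eq_zero {p q} h := by
    have h1 : 0 ≤ dist p.y q.y := dist_nonneg
    have h2 := abs_nonneg (p.r - q.r)
    have h3 : dist p.y q.y = 0 := by linarith
    have h4 : |p.r - q.r| = 0 := by linarith
    exact P.ext (dist_eq_zero.mp h3) (by linarith [abs_eq_zero.mp h4])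

lemma dist_P (p q : P Y) : dist p q = dist p.y q.y + |p.r - q.r| := rfl

/-- The space `Y × [-t, t]` with the sum metric. -/
def Wt (Y : Type) (t : ℝ) : Type := {p : P Y // |p.r| ≤ t}

noncomputable instance (t : ℝ) : MetricSpace (Wt Y t) :=
  inferInstanceAs (MetricSpace {p : P Y // |p.r| ≤ t})

lemma compact_P [CompactSpace Y] (t : ℝ) : IsCompact {p : P Y | |p.r| ≤ t} := by
  have h1 : {p : P Y | |p.r| ≤ t} = (fun q : Y × ℝ => (⟨q.1, q.2⟩ : P Y)) ''
      (univ ×ˢ Icc (-t) t) := by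
    ext p
    constructor
    · intro hp
      exact ⟨(p.y, p.r), ⟨mem_univ _, abs_le.mp hp⟩, rfl⟩
    · rintro ⟨q, ⟨-, hq⟩, rfl⟩
      exact abs_le.mpr hq
  rw [h1]
  refine (isCompact_univ.prod isCompact_Icc).image ?_
  refine LipschitzWith.continuous (K := 2) (LipschitzWith.of_dist_le_mul fun p q => ?_)
  rw [dist_P, Prod.dist_eq]
  have h2 := le_max_left (dist p.1 q.1) (dist p.2 q.2)
  have h3 := le_max_right (dist p.1 q.1) (dist p.2 q.2)
  rw [Real.dist_eq] at h3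
  simp only [NNReal.coe_ofNat, Real.dist_eq] at h2 h3 ⊢
  linarith

instance [CompactSpace Y] (t : ℝ) : CompactSpace (Wt Y t) :=
  isCompact_iff_compactSpace.1 (compact_P t)

instance [Nonempty Y] (t : I) : Nonempty (Wt Y t) :=
  ⟨⟨⟨Classical.arbitrary Y, 0⟩, by rw [abs_zero]; exact t.2.1⟩⟩

lemma low [CompactSpace Y] [Nonempty Y] (s t : I) : (t : ℝ) - s ≤ ghDist (Wt Y s) (Wt Y t) := by
  obtain ⟨⟨y₀, y₁⟩, -, hy⟩ := isCompact_univ.exists_isMaxOn (univ_nonempty (α := Y × Y))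
    (continuous_dist (α := Y)).continuousOn
  have hmax : ∀ y y', dist y y' ≤ dist y₀ y₁ := fun y y' => hy (mem_univ (y, y'))
  obtain ⟨Φ, Ψ, h1, h2, h3⟩ := ghDist_eq_hausdorffDist (Wt Y t) (Wt Y s)
  have hsymm : ghDist (Wt Y s) (Wt Y t) = ghDist (Wt Y t) (Wt Y s) := dist_comm _ _
  rw [hsymm]
  have hcr : IsCompact (range Ψ) := isCompact_range h2.continuous
  have key : ∀ x, ∃ z, dist (Φ x) (Ψ z) ≤ ghDist (Wt Y t) (Wt Y s) := by
    intro x
    obtain ⟨_, ⟨z, rfl⟩, hz⟩ := hcr.exists_infDist_eq_dist (range_nonempty _) (Φ x)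
    refine ⟨z, ?_⟩
    rw [← hz, h3]
    exact infDist_le_hausdorffDist_of_mem (mem_range_self x)
      (hausdorffEDist_ne_top_of_nonempty_of_bounded (range_nonempty _) (range_nonempty _)
        (isCompact_range h1.continuous).isBounded hcr.isBounded)
  let a : Wt Y t := ⟨⟨y₀, t⟩, by rw [abs_of_nonneg t.2.1]⟩
  let b : Wt Y t := ⟨⟨y₁, -t⟩, by rw [abs_neg, abs_of_nonneg t.2.1]⟩
  obtain ⟨z, hz⟩ := key a
  obtain ⟨w, hw⟩ := key b
  have h4 : dist (Φ a) (Φ b) = dist y₀ y₁ + 2 * t := by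
    rw [h1.dist_eq]
    change dist y₀ y₁ + |(t : ℝ) - -t| = _
    rw [sub_neg_eq_add, abs_of_nonneg (by linarith [t.2.1])]
    ring
  have h5 : dist (Ψ z) (Ψ w) ≤ dist y₀ y₁ + 2 * s := by
    rw [h2.dist_eq]
    change dist z.1.y w.1.y + |z.1.r - w.1.r| ≤ _
    have h6 := hmax z.1.y w.1.y
    have h7 := abs_sub z.1.r w.1.r
    have h8 := z.2
    have h9 := w.2
    linarith
  have h6 := dist_triangle4 (Φ a) (Ψ z) (Ψ w) (Φ b)
  rw [dist_comm (Ψ w)] at h6
  linarith

/-- The embedding into `Y × [-1, 1]`. -/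
def emb (t : I) (x : Wt Y t) : Wt Y 1 := ⟨x.1, x.2.trans t.2.2⟩

lemma iso_emb (t : I) : Isometry (emb (Y := Y) t) := Isometry.of_dist_eq fun _ _ => rfl

lemma up (s t : I) (x : Wt Y s) : ∃ q ∈ range (emb (Y := Y) t),
    dist (emb s x) q ≤ |(s : ℝ) - t| := by
  have ht := t.2.1
  have hx := abs_le.mp x.2
  have hc : |max (-(t : ℝ)) (min t x.1.r)| ≤ t := by
    rw [abs_le]
    exact ⟨le_max_left _ _, max_le (by linarith) (min_le_left _ _)⟩
  refine ⟨emb t ⟨⟨x.1.y, max (-(t : ℝ)) (min t x.1.r)⟩, hc⟩, mem_range_self _, ?_⟩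
  change dist x.1.y x.1.y + |x.1.r - max (-(t : ℝ)) (min t x.1.r)| ≤ _
  rw [dist_self, zero_add]
  have h1 := le_abs_self ((s : ℝ) - t)
  have h2 := abs_nonneg ((s : ℝ) - t)
  rcases le_total (t : ℝ) x.1.r with h | h
  · rw [min_eq_left h, max_eq_right (by linarith), abs_of_nonneg (by linarith)]
    linarith
  · rw [min_eq_right h]
    rcases le_total (-(t : ℝ)) x.1.r with h' | h'
    · rw [max_eq_right h', sub_self, abs_zero]
      exact h2
    · rw [max_eq_left h', abs_of_nonpos (by linarith)]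
      linarith

lemma facts [CompactSpace Y] [Nonempty Y] (s t : I) :
    ghDist (Wt Y s) (Wt Y t) = |(s : ℝ) - t| ∧
    hausdorffDist (range (emb (Y := Y) s)) (range (emb (Y := Y) t)) =
      ghDist (Wt Y s) (Wt Y t) := by
  have h1 : hausdorffDist (range (emb (Y := Y) s)) (range (emb (Y := Y) t)) ≤ |(s : ℝ) - t| :=
    hausdorffDist_le_of_mem_dist (abs_nonneg _)
      (forall_mem_range.2 fun x => up s t x)
      (forall_mem_range.2 fun x => abs_sub_comm (t : ℝ) s ▸ up t s x)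
  have hn : Nonempty (Wt Y 1) := inferInstanceAs (Nonempty (Wt Y (1 : I)))
  have h2 := ghDist_le_hausdorffDist (iso_emb (Y := Y) s) (iso_emb (Y := Y) t)
  have h3 : |(s : ℝ) - t| ≤ ghDist (Wt Y s) (Wt Y t) :=
    abs_sub_le_iff.2 ⟨(low t s).trans_eq (dist_comm _ _), low s t⟩
  exact ⟨(h2.trans h1).antisymm h3, (h1.trans h3).antisymm h2⟩

/-- The space at the time `0` is `Y`. -/
def isoZero : Wt Y (0 : I) ≃ᵢ Y where
  toFun x := x.1.y
  invFun y := ⟨⟨y, 0⟩, by simp⟩
  left_inv x := by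
    have h1 : |x.1.r| ≤ 0 := x.2
    have h2 : x.1.r = 0 := abs_nonpos_iff.mp h1
    apply Subtype.ext
    exact P.ext rfl h2.symm
  right_inv y := rfl
  isometry_toFun := Isometry.of_dist_eq fun a b => by
    have h1 : a.1.r = 0 := abs_nonpos_iff.mp a.2
    have h2 : b.1.r = 0 := abs_nonpos_iff.mp b.2
    change dist a.1.y b.1.y = dist a.1.y b.1.y + |a.1.r - b.1.r|
    rw [h1, h2, sub_self, abs_zero, add_zero]

theorem geodesic_Wt [CompactSpace Y] [Nonempty Y] : Geodesic (fun t : I => Wt Y t) ∧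
    ghDist (Wt Y (0 : I)) (Wt Y (1 : I)) = 1 ∧ ManyHulls fun t : I => Wt Y t := by
  have h01 : ghDist (Wt Y (0 : I)) (Wt Y (1 : I)) = 1 := by
    rw [(facts 0 1).1]
    simp
  have hW : Geodesic (fun t : I => Wt Y t) := fun s t => by
    rw [(facts s t).1, h01, mul_one]
  have hφ : Realizes (fun t : I => Wt Y t) (Wt Y 1) (fun t => emb t) :=
    ⟨fun t => iso_emb t, fun s t => (facts s t).2⟩
  let y := Classical.arbitrary Y
  refine ⟨hW, h01, criterion hW hφ (s := 0) (t := 1) (x := ⟨⟨y, 0⟩, by simp⟩)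
    (y := ⟨⟨y, 0⟩, by simp⟩) ?_⟩
  have h1 : dist (emb (0 : I) (⟨⟨y, 0⟩, by simp⟩ : Wt Y (0 : I)))
      (emb (1 : I) (⟨⟨y, 0⟩, by simp⟩ : Wt Y (1 : I))) = 0 := dist_self _
  rw [h1, h01]
  exact one_pos

end

end Pool.Agent.KS6_91.GH
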