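import Pool.Agent.KS6_91.GH.Prod

/-!
# The geodesic from the one-point space to the two-point space: the hull is unique
-/

set_option autoImplicit false

namespace Pool.Agent.KS6_91.GH

open Set Metric GromovHausdorff unitInterval

/-- The space `{0, t}`. -/
def Tt (t : ℝ) : Type := {x : ℝ // x = 0 ∨ x = t}

noncomputable instance (t : ℝ) : MetricSpace (Tt t) :=
  inferInstanceAs (MetricSpace {x : ℝ // x = 0 ∨ x = t})

instance (t : ℝ) : CompactSpace (Tt t) := by
  have h : IsCompact {x : ℝ | x = 0 ∨ x = t} := by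
    have h1 : {x : ℝ | x = 0 ∨ x = t} = {0, t} := rfl
    rw [h1]
    exact (toFinite _).isCompact
  exact isCompact_iff_compactSpace.1 h

/-- the point `0` -/
def t0 (t : ℝ) : Tt t := ⟨0, Or.inl rfl⟩

/-- the point `t` -/
def t1 (t : ℝ) : Tt t := ⟨t, Or.inr rfl⟩

instance (t : ℝ) : Nonempty (Tt t) := ⟨t0 t⟩

lemma dist_t0_t1 (t : I) : dist (t0 t) (t1 t) = t := by
  change dist (0 : ℝ) t = t
  rw [Real.dist_eq, zero_sub, abs_neg, abs_of_nonneg t.2.1]

lemma dist_Tt (t : I) (x y : Tt t) : dist x y ≤ t := by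
  change dist x.1 y.1 ≤ t
  have ht := t.2.1
  rcases x.2 with h | h <;> rcases y.2 with h' | h' <;> rw [h, h', Real.dist_eq] <;>
    simp [abs_of_nonneg ht, ht]

lemma lowT (s t : I) : ((t : ℝ) - s) / 2 ≤ ghDist (Tt s) (Tt t) := by
  obtain ⟨Φ, Ψ, h1, h2, h3⟩ := ghDist_eq_hausdorffDist (Tt t) (Tt s)
  have hsymm : ghDist (Tt s) (Tt t) = ghDist (Tt t) (Tt s) := dist_comm _ _
  rw [hsymm]
  have hcr : IsCompact (range Ψ) := isCompact_range h2.continuous
  have key : ∀ x, ∃ z, dist (Φ x) (Ψ z) ≤ ghDist (Tt t) (Tt s) := by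
    intro x
    obtain ⟨_, ⟨z, rfl⟩, hz⟩ := hcr.exists_infDist_eq_dist (range_nonempty _) (Φ x)
    refine ⟨z, ?_⟩
    rw [← hz, h3]
    exact infDist_le_hausdorffDist_of_mem (mem_range_self x)
      (hausdorffEDist_ne_top_of_nonempty_of_bounded (range_nonempty _) (range_nonempty _)
        (isCompact_range h1.continuous).isBounded hcr.isBounded)
  obtain ⟨z, hz⟩ := key (t0 t)
  obtain ⟨w, hw⟩ := key (t1 t)
  have h4 : dist (Φ (t0 t)) (Φ (t1 t)) = t := by rw [h1.dist_eq, dist_t0_t1]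
  have h5 : dist (Ψ z) (Ψ w) ≤ s := by rw [h2.dist_eq]; exact dist_Tt s z w
  have h6 := dist_triangle4 (Φ (t0 t)) (Ψ z) (Ψ w) (Φ (t1 t))
  rw [dist_comm (Ψ w)] at h6
  linarith

/-- The embedding into the interval `[-1, 1]`. -/
noncomputable def embT (t : I) (x : Tt t) : Icc (-1 : ℝ) 1 := ⟨x.1 - t / 2, by
  have h0 := t.2.1
  have h1 := t.2.2
  rcases x.2 with h | h <;> rw [h] <;> constructor <;> linarith⟩

lemma iso_embT (t : I) : Isometry (embT t) := Isometry.of_dist_eq fun x y => by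
  change dist (x.1 - (t : ℝ) / 2) (y.1 - t / 2) = dist x.1 y.1
  rw [dist_sub_right]

lemma upT (s t : I) (x : Tt s) : ∃ q ∈ range (embT t), dist (embT s x) q ≤ |(s : ℝ) - t| / 2 := by
  rcases x.2 with h | h
  · refine ⟨embT t (t0 t), mem_range_self _, ?_⟩
    change dist (x.1 - (s : ℝ) / 2) (0 - t / 2) ≤ _
    rw [h, Real.dist_eq, show (0 : ℝ) - s / 2 - (0 - t / 2) = -((s - t) / 2) by ring, abs_neg,
      abs_div, abs_two]
  · refine ⟨embT t (t1 t), mem_range_self _, ?_⟩
    change dist (x.1 - (s : ℝ) / 2) (t - t / 2) ≤ _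
    rw [h, Real.dist_eq, show (s : ℝ) - s / 2 - (t - t / 2) = (s - t) / 2 by ring,
      abs_div, abs_two]

lemma factsT (s t : I) :
    ghDist (Tt s) (Tt t) = |(s : ℝ) - t| / 2 ∧
    hausdorffDist (range (embT s)) (range (embT t)) = ghDist (Tt s) (Tt t) := by
  have h1 : hausdorffDist (range (embT s)) (range (embT t)) ≤ |(s : ℝ) - t| / 2 :=
    hausdorffDist_le_of_mem_dist (by positivity)
      (forall_mem_range.2 fun x => upT s t x)
      (forall_mem_range.2 fun x => abs_sub_comm (t : ℝ) s ▸ upT t s x)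
  have hn : Nonempty (Icc (-1 : ℝ) 1) := ⟨⟨0, by norm_num⟩⟩
  have h2 := ghDist_le_hausdorffDist (iso_embT s) (iso_embT t)
  have h3 : |(s : ℝ) - t| / 2 ≤ ghDist (Tt s) (Tt t) := by
    have h4 := lowT s t
    have h5 : ((s : ℝ) - t) / 2 ≤ ghDist (Tt s) (Tt t) := (lowT t s).trans_eq (dist_comm _ _)
    rcases abs_cases ((s : ℝ) - t) with h | h <;> linarith
  exact ⟨(h2.trans h1).antisymm h3, (h1.trans h3).antisymm h2⟩

lemma h01T : ghDist (Tt (0 : I)) (Tt (1 : I)) = 1 / 2 := by
  rw [(factsT 0 1).1]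
  simp

lemma geodesicT : Geodesic (fun t : I => Tt t) := fun s t => by
  rw [(factsT s t).1, h01T]
  ring

/-- Every hull is isometric to the unit interval. -/
theorem hullT {X : Type} [MetricSpace X] [CompactSpace X] {φ : ∀ t : I, Tt t → X}
    (hφ : Realizes (fun t : I => Tt t) X φ) : Nonempty (hull φ ≃ᵢ Icc (0 : ℝ) 1) := by
  have nr : ∀ (s t : I) (x : Tt s), ∃ y : Tt t, dist (φ s x) (φ t y) ≤ |(s : ℝ) - t| / 2 := by
    intro s t x
    obtain ⟨y, hy⟩ := near hφ s t x
    exact ⟨y, hy.trans_eq (factsT s t).1⟩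
  have hT : ∀ (t : I) (x y : Tt t), dist (φ t x) (φ t y) ≤ t := fun t x y => by
    rw [(hφ.1 t).dist_eq]
    exact dist_Tt t x y
  set a := φ 1 (t0 (1 : I)) with ha
  set b := φ 1 (t1 (1 : I)) with hb
  have hab : dist a b = 1 := by
    rw [ha, hb, (hφ.1 1).dist_eq, dist_t0_t1]
    rfl
  have h1t : ∀ t : I, |((1 : I) : ℝ) - t| / 2 = (1 - t) / 2 := fun t => by
    rw [abs_of_nonneg (by simpa using t.2.2)]
    rfl
  choose z hz using fun t : I => nr 1 t (t0 (1 : I))
  choose w hw using fun t : I => nr 1 t (t1 (1 : I))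
  simp only [h1t] at hz hw
  -- all inequalities are equalities
  have e : ∀ t : I, dist a (φ t (z t)) = (1 - t) / 2 ∧ dist (φ t (z t)) (φ t (w t)) = t ∧
      dist a (φ t (w t)) = (1 + t) / 2 ∧ dist (φ t (w t)) b = (1 - t) / 2 := by
    intro t
    have h1 : dist a (φ t (z t)) ≤ (1 - t) / 2 := hz t
    have h2 : dist b (φ t (w t)) ≤ (1 - t) / 2 := hw t
    have h3 := hT t (z t) (w t)
    have h4 := dist_triangle4 a (φ t (z t)) (φ t (w t)) b
    have h5 := dist_triangle a (φ t (w t)) b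
    have h6 := dist_triangle a (φ t (z t)) (φ t (w t))
    rw [dist_comm b] at h2
    refine ⟨?_, ?_, ?_, ?_⟩ <;> linarith
  -- every point of the hull is one of these points
  have cov : ∀ (t : I) (x : Tt t), φ t x = φ t (z t) ∨ φ t x = φ t (w t) := by
    intro t x
    rcases eq_or_ne (t : ℝ) 0 with h0 | h0
    · left
      have h1 := hT t x (z t)
      rw [h0] at h1
      exact dist_le_zero.mp h1
    · have h1 : dist (z t) (w t) = t := by
        rw [← (hφ.1 t).dist_eq]
        exact (e t).2.1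
      have h2 : dist (z t).1 (w t).1 = t := h1
      have h3 : x = z t ∨ x = w t := by
        rcases x.2 with hx | hx <;> rcases (z t).2 with h | h <;> rcases (w t).2 with h' | h'
        all_goals first
          | (left; exact Subtype.ext (hx.trans h.symm))
          | (right; exact Subtype.ext (hx.trans h'.symm))
          | (exfalso; rw [h, h', dist_self] at h2; exact h0 h2.symm)
      rcases h3 with h3 | h3
      · left; rw [h3]
      · right; rw [h3]
  have zz : ∀ s t : I, s ≤ t → dist (φ s (z s)) (φ t (z t)) ≤ (t - s) / 2 := by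
    intro s t hst
    have hst' : (s : ℝ) ≤ t := hst
    obtain ⟨y, hy⟩ := nr t s (z t)
    rw [abs_of_nonneg (by linarith), dist_comm] at hy
    rcases cov s y with h | h
    · rwa [h] at hy
    · rw [h] at hy
      have h1 := dist_triangle a (φ t (z t)) (φ s (w s))
      rw [dist_comm (φ t (z t)), (e s).2.2.1, (e t).1] at h1
      have h2 : (s : ℝ) = 0 := le_antisymm (by linarith) s.2.1
      have h3 := (e s).2.1
      rw [h2] at h3
      rwa [dist_eq_zero.mp h3]
  have ww : ∀ s t : I, s ≤ t → dist (φ s (w s)) (φ t (w t)) ≤ (t - s) / 2 := by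
    intro s t hst
    have hst' : (s : ℝ) ≤ t := hst
    obtain ⟨y, hy⟩ := nr t s (w t)
    rw [abs_of_nonneg (by linarith), dist_comm] at hy
    rcases cov s y with h | h
    · rw [h] at hy
      have h1 := dist_triangle a (φ s (z s)) (φ t (w t))
      rw [(e s).1, (e t).2.2.1] at h1
      have h2 : (s : ℝ) = 0 := le_antisymm (by linarith) s.2.1
      have h3 := (e s).2.1
      rw [h2] at h3
      rwa [← dist_eq_zero.mp h3]
    · rwa [h] at hy
  -- the coordinate
  have hup : ∀ p q : hull φ, dist p.1 q.1 ≤ |dist a p.1 - dist a q.1| := by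
    have zz' : ∀ s t : I, dist (φ s (z s)) (φ t (z t)) ≤ |(1 - (s : ℝ)) / 2 - (1 - (t : ℝ)) / 2| := by
      intro s t
      rcases le_total s t with h | h
      · have h' : (s : ℝ) ≤ t := h
        rw [abs_of_nonneg (by linarith)]
        linarith [zz s t h]
      · have h' : (t : ℝ) ≤ s := h
        rw [abs_of_nonpos (by linarith), dist_comm]
        linarith [zz t s h]
    have ww' : ∀ s t : I, dist (φ s (w s)) (φ t (w t)) ≤ |(1 + (s : ℝ)) / 2 - (1 + (t : ℝ)) / 2| := by
      intro s t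
      rcases le_total s t with h | h
      · have h' : (s : ℝ) ≤ t := h
        rw [abs_of_nonpos (by linarith)]
        linarith [ww s t h]
      · have h' : (t : ℝ) ≤ s := h
        rw [abs_of_nonneg (by linarith), dist_comm]
        linarith [ww t s h]
    have zw : ∀ s t : I, dist (φ s (z s)) (φ t (w t)) ≤ (s + t) / 2 := by
      intro s t
      rcases le_total s t with h | h
      · have h' : (s : ℝ) ≤ t := h
        have h1 := dist_triangle (φ s (z s)) (φ s (w s)) (φ t (w t))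
        rw [(e s).2.1] at h1
        linarith [ww s t h]
      · have h' : (t : ℝ) ≤ s := h
        have h1 := dist_triangle (φ s (z s)) (φ t (z t)) (φ t (w t))
        rw [(e t).2.1, dist_comm (φ s (z s)) (φ t (z t))] at h1
        linarith [zz t s h]
    rintro ⟨p, hp⟩ ⟨q, hq⟩
    obtain ⟨s, x, rfl⟩ := mem_iUnion.mp hp
    obtain ⟨t, y, rfl⟩ := mem_iUnion.mp hq
    simp only
    rcases cov s x with h | h <;> rcases cov t y with h' | h' <;> rw [h, h']
    · rw [(e s).1, (e t).1]
      exact zz' s t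
    · rw [(e s).1, (e t).2.2.1, abs_of_nonpos (by linarith [s.2.1, t.2.1])]
      linarith [zw s t]
    · rw [(e s).2.2.1, (e t).1, abs_of_nonneg (by linarith [s.2.1, t.2.1]), dist_comm]
      linarith [zw t s]
    · rw [(e s).2.2.1, (e t).2.2.1]
      exact ww' s t
  have hmem : ∀ p : hull φ, dist a p.1 ∈ Icc (0 : ℝ) 1 := by
    rintro ⟨p, hp⟩
    obtain ⟨s, x, rfl⟩ := mem_iUnion.mp hp
    refine ⟨dist_nonneg, ?_⟩
    change dist a (φ s x) ≤ 1
    rcases cov s x with h | h <;> rw [h]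
    · rw [(e s).1]; linarith [s.2.1]
    · rw [(e s).2.2.1]; linarith [s.2.2]
  let f : hull φ → Icc (0 : ℝ) 1 := fun p => ⟨dist a p.1, hmem p⟩
  have hf : Isometry f := Isometry.of_dist_eq fun p q => by
    change dist (dist a p.1) (dist a q.1) = dist p.1 q.1
    rw [Real.dist_eq]
    refine le_antisymm ?_ (hup p q)
    rw [abs_sub_le_iff]
    have h1 := dist_triangle a q.1 p.1
    have h2 := dist_triangle a p.1 q.1
    rw [dist_comm q.1] at h1
    constructor <;> linarith
  have hsurj : Function.Surjective f := by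
    rintro ⟨r, hr0, hr1⟩
    rcases le_total r (1 / 2) with h | h
    · let t : I := ⟨1 - 2 * r, by linarith, by linarith⟩
      refine ⟨⟨φ t (z t), mem_iUnion.mpr ⟨t, mem_range_self _⟩⟩, Subtype.ext ?_⟩
      change dist a (φ t (z t)) = r
      rw [(e t).1]
      change (1 - (1 - 2 * r)) / 2 = r
      ring
    · let t : I := ⟨2 * r - 1, by linarith, by linarith⟩
      refine ⟨⟨φ t (w t), mem_iUnion.mpr ⟨t, mem_range_self _⟩⟩, Subtype.ext ?_⟩
      change dist a (φ t (w t)) = r
      rw [(e t).2.2.1]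
      change (1 + (2 * r - 1)) / 2 = r
      ring
  exact ⟨IsometryEquiv.mk (Equiv.ofBijective f ⟨hf.injective, hsurj⟩) hf⟩

theorem uniqueT : Geodesic (fun t : I => Tt t) ∧ ghDist (Tt (0 : I)) (Tt (1 : I)) = 1 / 2 ∧
    (∃ φ : ∀ t : I, Tt t → Icc (-1 : ℝ) 1, Realizes (fun t : I => Tt t) (Icc (-1 : ℝ) 1) φ) ∧
    ∀ (X : Type) [MetricSpace X] [CompactSpace X] (φ : ∀ t : I, Tt t → X),
      Realizes (fun t : I => Tt t) X φ → Nonempty (hull φ ≃ᵢ Icc (0 : ℝ) 1) :=
  ⟨geodesicT, h01T, ⟨embT, iso_embT, fun s t => (factsT s t).2⟩, fun _ _ _ _ h => hullT h⟩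

end Pool.Agent.KS6_91.GH
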